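import Pool.Agent.helper84.QD.Defs

open Metric Set Topology Filter MeasureTheory
open scoped Manifold ContDiff ENNReal ComplexConjugate

namespace Pool.Agent.helper84.QD

namespace R1

/-- Möbius self-map of the disk -/
noncomputable def mob (a w : ℂ) : ℂ := (w - a) / (1 - conj a * w)

lemma den_ne {a w : ℂ} (ha : ‖a‖ < 1) (hw : ‖w‖ < 1) : 1 - conj a * w ≠ 0 := by
  intro h
  have h1 : conj a * w = 1 := by linear_combination -h
  have h2 : ‖conj a * w‖ < 1 := by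
    rw [norm_mul, RCLike.norm_conj]
    nlinarith [norm_nonneg a, norm_nonneg w]
  rw [h1, norm_one] at h2
  exact lt_irrefl _ h2

lemma norm_sq_id (a w : ℂ) : ‖1 - conj a * w‖ ^ 2 - ‖w - a‖ ^ 2 =
    (1 - ‖a‖ ^ 2) * (1 - ‖w‖ ^ 2) := by
  rw [← Complex.normSq_eq_norm_sq, ← Complex.normSq_eq_norm_sq, ← Complex.normSq_eq_norm_sq,
    ← Complex.normSq_eq_norm_sq]
  simp [Complex.normSq_apply]
  ring

lemma norm_mob_lt {a w : ℂ} (ha : ‖a‖ < 1) (hw : ‖w‖ < 1) : ‖mob a w‖ < 1 := by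
  have h0 := norm_pos_iff.2 (den_ne ha hw)
  rw [mob, norm_div, div_lt_one h0]
  have h := norm_sq_id a w
  have h1 : 0 < (1 - ‖a‖ ^ 2) * (1 - ‖w‖ ^ 2) := by
    apply mul_pos <;> nlinarith [norm_nonneg a, norm_nonneg w]
  exact lt_of_pow_lt_pow_left₀ 2 h0.le (by linarith)

lemma mob_inj {a w w' : ℂ} (ha : ‖a‖ < 1) (hw : ‖w‖ < 1) (hw' : ‖w'‖ < 1)
    (h : mob a w = mob a w') : w = w' := by
  rw [mob, mob, div_eq_div_iff (den_ne ha hw) (den_ne ha hw')] at h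
  have h1 : (1 - conj a * a) * (w - w') = 0 := by linear_combination h
  have h2 : 1 - conj a * a ≠ 0 := den_ne ha ha
  have := (mul_eq_zero.1 h1).resolve_left h2
  linear_combination this

lemma mob_ne_zero {a w : ℂ} (ha : ‖a‖ < 1) (hw : ‖w‖ < 1) (h : w ≠ a) : mob a w ≠ 0 :=
  div_ne_zero (sub_ne_zero.2 h) (den_ne ha hw)

lemma mob_self (a : ℂ) : mob a a = 0 := by simp [mob]

lemma mob_zero (a : ℂ) : mob a 0 = -a := by simp [mob]

lemma hasDerivAt_mob {a w : ℂ} (ha : ‖a‖ < 1) (hw : ‖w‖ < 1) :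
    HasDerivAt (mob a) ((1 - conj a * a) / (1 - conj a * w) ^ 2) w := by
  have h1 : HasDerivAt (fun w : ℂ => w - a) 1 w := (hasDerivAt_id w).sub_const a
  have h2 : HasDerivAt (fun w : ℂ => 1 - conj a * w) (-(conj a)) w := by
    have := ((hasDerivAt_id w).const_mul (conj a)).const_sub 1
    simpa using this
  have h3 := h1.fun_div h2 (den_ne ha hw)
  refine h3.congr_deriv ?_
  congr 1
  ring

/-- holomorphic square root -/
lemma exists_sqrt {D : Set ℂ} (hDo : IsOpen D) (hDc : IsConnected D)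
    (hprim : ∀ f : ℂ → ℂ, DifferentiableOn ℂ f D → ∃ g : ℂ → ℂ, ∀ z ∈ D, HasDerivAt g (f z) z)
    {f : ℂ → ℂ} (hf : DifferentiableOn ℂ f D) (h0 : ∀ z ∈ D, f z ≠ 0) :
    ∃ g : ℂ → ℂ, DifferentiableOn ℂ g D ∧ ∀ z ∈ D, g z ^ 2 = f z := by
  obtain ⟨L, hL⟩ := hprim (fun z => deriv f z / f z) ((hf.deriv hDo).div hf h0)
  have hder : ∀ z ∈ D, HasDerivAt (fun z => f z * Complex.exp (-L z)) 0 z := by
    intro z hz
    have h1 := (hf.differentiableAt (hDo.mem_nhds hz)).hasDerivAt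
    have h2 := ((hL z hz).neg).cexp
    have h3 := h1.fun_mul h2
    refine h3.congr_deriv ?_
    have := h0 z hz
    simp only [Pi.neg_apply]
    field_simp
    ring
  obtain ⟨x, hx⟩ := hDc.nonempty
  have hconst : ∀ z ∈ D, f z * Complex.exp (-L z) = f x * Complex.exp (-L x) := by
    intro z hz
    refine hDo.is_const_of_deriv_eq_zero hDc.isPreconnected
      (fun y hy => (hder y hy).differentiableAt.differentiableWithinAt) ?_ hz hx
    intro y hy
    exact (hder y hy).deriv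
  have hne : f x * Complex.exp (-L x) ≠ 0 := mul_ne_zero (h0 x hx) (Complex.exp_ne_zero _)
  set c := Complex.log (f x * Complex.exp (-L x)) with hc
  refine ⟨fun z => Complex.exp ((L z + c) / 2), ?_, ?_⟩
  · intro z hz
    have h1 : HasDerivAt L (deriv f z / f z) z := hL z hz
    have h2 := ((h1.add_const c).div_const 2).cexp
    exact h2.differentiableAt.differentiableWithinAt
  · intro z hz
    rw [← Complex.exp_nat_mul]
    have h1 : (2 : ℕ) * ((L z + c) / 2) = L z + c := by push_cast; ring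
    rw [h1, Complex.exp_add, hc, Complex.exp_log hne, ← hconst z hz, Complex.exp_neg]
    have := Complex.exp_ne_zero (L z)
    field_simp

/-- the family of competitors -/
structure Fam (D : Set ℂ) (x : ℂ) (φ : ℂ → ℂ) : Prop where
  diff : DifferentiableOn ℂ φ D
  inj : InjOn φ D
  maps : MapsTo φ D (ball 0 1)
  zero : φ x = 0
  der : ∀ z ∈ D, deriv φ z ≠ 0

lemma improve {D : Set ℂ} (hDo : IsOpen D) (hDc : IsConnected D)
    (hprim : ∀ f : ℂ → ℂ, DifferentiableOn ℂ f D → ∃ g : ℂ → ℂ, ∀ z ∈ D, HasDerivAt g (f z) z)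
    {x : ℂ} (hx : x ∈ D) {φ : ℂ → ℂ} (hφ : Fam D x φ) {a : ℂ} (ha : ‖a‖ < 1)
    (haφ : a ∉ φ '' D) : ∃ φ₁ : ℂ → ℂ, Fam D x φ₁ ∧
      ‖deriv φ₁ x‖ * (2 * Real.sqrt ‖a‖) = (1 + ‖a‖) * ‖deriv φ x‖ := by
  have hφ1 : ∀ z ∈ D, ‖φ z‖ < 1 := fun z hz => by simpa using hφ.maps hz
  have hφd : ∀ z ∈ D, HasDerivAt φ (deriv φ z) z := fun z hz =>
    (hφ.diff.differentiableAt (hDo.mem_nhds hz)).hasDerivAt
  have hne : ∀ z ∈ D, φ z ≠ a := fun z hz h => haφ ⟨z, hz, h⟩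
  -- first Möbius map
  have hψ₁d : ∀ z ∈ D, HasDerivAt (fun z => mob a (φ z))
      ((1 - conj a * a) / (1 - conj a * φ z) ^ 2 * deriv φ z) z := fun z hz =>
    (hasDerivAt_mob ha (hφ1 z hz)).comp z (hφd z hz)
  obtain ⟨g, hg, hg2⟩ := exists_sqrt hDo hDc hprim
    (f := fun z => mob a (φ z)) (fun z hz => (hψ₁d z hz).differentiableAt.differentiableWithinAt)
    (fun z hz => mob_ne_zero ha (hφ1 z hz) (hne z hz))
  have hgd : ∀ z ∈ D, HasDerivAt g (deriv g z) z := fun z hz =>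
    (hg.differentiableAt (hDo.mem_nhds hz)).hasDerivAt
  have hg1 : ∀ z ∈ D, ‖g z‖ < 1 := by
    intro z hz
    have h := norm_mob_lt ha (hφ1 z hz)
    rw [← hg2 z hz, norm_pow] at h
    nlinarith [norm_nonneg (g z)]
  have hginj : InjOn g D := by
    intro z hz w hw h
    have : mob a (φ z) = mob a (φ w) := by rw [← hg2 z hz, ← hg2 w hw, h]
    exact hφ.inj hz hw (mob_inj ha (hφ1 z hz) (hφ1 w hw) this)
  have hgder : ∀ z ∈ D, 2 * g z * deriv g z =
      (1 - conj a * a) / (1 - conj a * φ z) ^ 2 * deriv φ z := by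
    intro z hz
    have h1 : HasDerivAt (fun z => g z ^ 2) (2 * g z * deriv g z) z := by
      have := (hgd z hz).fun_pow 2
      simpa using this
    have h2 : (fun z => g z ^ 2) =ᶠ[𝓝 z] fun z => mob a (φ z) := by
      filter_upwards [hDo.mem_nhds hz] with w hw using hg2 w hw
    exact (h1.congr_of_eventuallyEq h2.symm).unique (hψ₁d z hz)
  set b := g x with hb
  have hb1 : ‖b‖ < 1 := hg1 x hx
  have hb2 : b ^ 2 = -a := by rw [hb, hg2 x hx, hφ.zero, mob_zero]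
  have hψd : ∀ z ∈ D, HasDerivAt (fun z => mob b (g z))
      ((1 - conj b * b) / (1 - conj b * g z) ^ 2 * deriv g z) z := fun z hz =>
    (hasDerivAt_mob hb1 (hg1 z hz)).comp z (hgd z hz)
  refine ⟨fun z => mob b (g z), ⟨fun z hz => (hψd z hz).differentiableAt.differentiableWithinAt,
    ?_, ?_, ?_, ?_⟩, ?_⟩
  · intro z hz w hw h
    exact hginj hz hw (mob_inj hb1 (hg1 z hz) (hg1 w hw) h)
  · intro z hz
    simpa using norm_mob_lt hb1 (hg1 z hz)
  · exact mob_self b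
  · intro z hz
    rw [(hψd z hz).deriv]
    have h1 := hgder z hz
    have h2 : (1 - conj a * a) / (1 - conj a * φ z) ^ 2 * deriv φ z ≠ 0 :=
      mul_ne_zero (div_ne_zero (den_ne ha ha) (pow_ne_zero _ (den_ne ha (hφ1 z hz))))
        (hφ.der z hz)
    rw [← h1] at h2
    exact mul_ne_zero (div_ne_zero (den_ne hb1 hb1) (pow_ne_zero _ (den_ne hb1 (hg1 z hz))))
      (right_ne_zero_of_mul h2)
  · rw [(hψd x hx).deriv]
    have h1 := hgder x hx
    rw [hφ.zero, mul_zero, sub_zero, one_pow, div_one, ← hb] at h1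
    have hna : ‖b‖ ^ 2 = ‖a‖ := by rw [← norm_pow, hb2, norm_neg]
    have hcb : (1 : ℂ) - conj b * b = ((1 - ‖a‖ : ℝ) : ℂ) := by
      rw [mul_comm, Complex.mul_conj, Complex.normSq_eq_norm_sq, hna]; push_cast; ring
    have hca : (1 : ℂ) - conj a * a = ((1 - ‖a‖ ^ 2 : ℝ) : ℂ) := by
      rw [mul_comm, Complex.mul_conj, Complex.normSq_eq_norm_sq]; push_cast; ring
    have hsq : Real.sqrt ‖a‖ = ‖b‖ := by rw [← hna, Real.sqrt_sq (norm_nonneg _)]
    have h3 : 2 * ‖b‖ * ‖deriv g x‖ = (1 - ‖a‖ ^ 2) * ‖deriv φ x‖ := by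
      have := congr_arg norm h1
      rw [hca] at this
      simp only [norm_mul, Complex.norm_real, Real.norm_eq_abs] at this
      rw [abs_of_nonneg (by nlinarith [norm_nonneg a] : (0:ℝ) ≤ 1 - ‖a‖ ^ 2)] at this
      simpa using this
    rw [← hb, hcb, hsq, norm_mul, norm_div, norm_pow]
    simp only [Complex.norm_real, Real.norm_eq_abs]
    rw [abs_of_pos (by linarith : (0:ℝ) < 1 - ‖a‖)]
    have h4 : (1 - ‖a‖) ≠ 0 := by linarith
    field_simp
    nlinarith [h3]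

lemma nonempty {D : Set ℂ} (_hDo : IsOpen D) (hDb : Bornology.IsBounded D) {x : ℂ}
    (hx : x ∈ D) : ∃ φ, Fam D x φ := by
  obtain ⟨R, hR⟩ := hDb.subset_ball x
  have hR0 : 0 < R := by
    have := hR hx
    rw [mem_ball, dist_self] at this
    exact this
  have hRc : (R : ℂ) ≠ 0 := by exact_mod_cast hR0.ne'
  have hd : ∀ z, HasDerivAt (fun z : ℂ => (z - x) / R) (1 / R) z := fun z =>
    ((hasDerivAt_id z).sub_const x).div_const _
  refine ⟨fun z => (z - x) / R, fun z _ => (hd z).differentiableAt.differentiableWithinAt,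
    ?_, ?_, ?_, ?_⟩
  · intro z _ w _ h
    have h' : (z - x) / R = (w - x) / R := h
    field_simp at h'
    linear_combination h'
  · intro z hz
    have h1 := hR hz
    rw [mem_ball, dist_eq_norm] at h1
    have : ‖(z - x) / (R : ℂ)‖ < 1 := by
      rw [norm_div, Complex.norm_real, Real.norm_of_nonneg hR0.le, div_lt_one hR0]
      exact h1
    simpa using this
  · simp
  · intro z _
    rw [(hd z).deriv]
    simpa using hRc

lemma bounded {D : Set ℂ} (hDo : IsOpen D) {x : ℂ} (hx : x ∈ D) :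
    ∃ C : ℝ, ∀ φ, Fam D x φ → ‖deriv φ x‖ ≤ C := by
  obtain ⟨δ, hδ, hδD⟩ := Metric.isOpen_iff.1 hDo x hx
  refine ⟨1 / (δ / 2), fun φ hφ => ?_⟩
  have hsub : closedBall x (δ / 2) ⊆ D :=
    (closedBall_subset_ball (by linarith)).trans hδD
  apply Complex.norm_deriv_le_of_forall_mem_sphere_norm_le (by positivity)
  · apply DifferentiableOn.diffContOnCl
    rw [closure_ball x (by positivity)]
    exact hφ.diff.mono hsub
  · intro z hz
    have := hφ.maps (hsub (sphere_subset_closedBall hz))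
    simpa using (mem_ball_zero_iff.1 this).le

end R1

theorem koebe {D : Set ℂ} (hDo : IsOpen D) (hDc : IsConnected D) (hDb : Bornology.IsBounded D)
    (hprim : ∀ f : ℂ → ℂ, DifferentiableOn ℂ f D → ∃ g : ℂ → ℂ, ∀ z ∈ D, HasDerivAt g (f z) z)
    {x : ℂ} (hx : x ∈ D) {r : ℝ} (hr : r < 1) :
    ∃ φ : ℂ → ℂ, DifferentiableOn ℂ φ D ∧ InjOn φ D ∧ MapsTo φ D (ball 0 1) ∧ φ x = 0 ∧
      (∀ z ∈ D, deriv φ z ≠ 0) ∧ ball 0 r ⊆ φ '' D := by
  by_cases hr0 : r ≤ 0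
  · -- an affine map
    obtain ⟨φ, hφ⟩ := R1.nonempty hDo hDb hx
    exact ⟨φ, hφ.diff, hφ.inj, hφ.maps, hφ.zero, hφ.der, by
      rw [ball_eq_empty.2 hr0]; exact empty_subset _⟩
  push Not at hr0
  obtain ⟨φ₀, hφ₀⟩ := R1.nonempty hDo hDb hx
  obtain ⟨C, hC⟩ := R1.bounded hDo hx
  set S : Set ℝ := {t | ∃ φ, R1.Fam D x φ ∧ t = ‖deriv φ x‖} with hS
  have hSb : BddAbove S := ⟨C, by rintro _ ⟨φ, hφ, rfl⟩; exact hC φ hφ⟩
  have hSn : S.Nonempty := ⟨_, φ₀, hφ₀, rfl⟩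
  have hM : 0 < sSup S := lt_of_lt_of_le (norm_pos_iff.2 (hφ₀.der x hx))
    (le_csSup hSb ⟨φ₀, hφ₀, rfl⟩)
  -- the gain factor
  have hq : 2 * Real.sqrt r < 1 + r := by
    have h1 : Real.sqrt r < 1 := by
      rw [Real.sqrt_lt' one_pos]; simpa using hr
    nlinarith [Real.sq_sqrt hr0.le, Real.sqrt_nonneg r, sq_nonneg (Real.sqrt r - 1),
      mul_pos (sub_pos.2 h1) (sub_pos.2 h1)]
  have hq1 : 2 * Real.sqrt r / (1 + r) < 1 := by
    rw [div_lt_one (by linarith)]; exact hq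
  have hlt : 2 * Real.sqrt r / (1 + r) * sSup S < sSup S := by nlinarith
  obtain ⟨_, ⟨φ, hφ, rfl⟩, hφM⟩ := exists_lt_of_lt_csSup hSn hlt
  refine ⟨φ, hφ.diff, hφ.inj, hφ.maps, hφ.zero, hφ.der, ?_⟩
  by_contra hcon
  obtain ⟨a, har, haφ⟩ := not_subset.1 hcon
  have har' : ‖a‖ < r := by simpa using har
  have ha1 : ‖a‖ < 1 := har'.trans hr
  obtain ⟨φ₁, hφ₁, hgain⟩ := R1.improve hDo hDc hprim hx hφ ha1 haφ
  have hle : ‖deriv φ₁ x‖ ≤ sSup S := le_csSup hSb ⟨φ₁, hφ₁, rfl⟩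
  -- `(1 + |a|) / (2 sqrt |a|) ≥ (1 + r) / (2 sqrt r)`
  have hs : Real.sqrt ‖a‖ ≤ Real.sqrt r := Real.sqrt_le_sqrt har'.le
  have h1 : Real.sqrt r < 1 := by
    rw [Real.sqrt_lt' one_pos]; simpa using hr
  have hmono : (1 + r) * Real.sqrt ‖a‖ ≤ (1 + ‖a‖) * Real.sqrt r := by
    have e1 := Real.sq_sqrt hr0.le
    have e2 := Real.sq_sqrt (norm_nonneg a)
    set u := Real.sqrt r
    set v := Real.sqrt ‖a‖
    have hv : 0 ≤ v := Real.sqrt_nonneg _
    have hu : 0 ≤ u := Real.sqrt_nonneg _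
    rw [← e1, ← e2]
    nlinarith [mul_nonneg (sub_nonneg.2 hs) (by nlinarith : (0:ℝ) ≤ 1 - u * v)]
  have hφM' : 2 * Real.sqrt r * sSup S < (1 + r) * ‖deriv φ x‖ := by
    rw [div_mul_eq_mul_div, div_lt_iff₀ (by linarith)] at hφM
    linarith
  have hsr : 0 < Real.sqrt r := Real.sqrt_pos.2 hr0
  have hda : 0 < ‖deriv φ x‖ := norm_pos_iff.2 (hφ.der x hx)
  have hva : 0 ≤ Real.sqrt ‖a‖ := Real.sqrt_nonneg _
  -- `(1+r) (1+|a|) |φ'| = (1+r) 2 v |φ₁'| ≤ 2 (1+r) v M ≤ 2 (1+|a|) u M < (1+|a|)(1+r)|φ'|`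
  have c1 : (1 + r) * ((1 + ‖a‖) * ‖deriv φ x‖) ≤ 2 * ((1 + r) * Real.sqrt ‖a‖) * sSup S := by
    rw [← hgain]
    have := mul_le_mul_of_nonneg_left hle (by positivity : (0:ℝ) ≤ 2 * ((1 + r) * Real.sqrt ‖a‖))
    nlinarith
  have c2 : 2 * ((1 + r) * Real.sqrt ‖a‖) * sSup S ≤
      2 * ((1 + ‖a‖) * Real.sqrt r) * sSup S := by
    have := mul_le_mul_of_nonneg_right hmono hM.le
    nlinarith
  have c3 : 2 * ((1 + ‖a‖) * Real.sqrt r) * sSup S < (1 + ‖a‖) * ((1 + r) * ‖deriv φ x‖) := by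
    have := mul_lt_mul_of_pos_left hφM' (by positivity : (0:ℝ) < 1 + ‖a‖)
    nlinarith
  nlinarith

end Pool.Agent.helper84.QD
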