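import Pool.Agent.helper84.QD.Defs
import Pool.Agent.helper64.QD.R1

open Metric Set Topology Filter MeasureTheory
open scoped Manifold ContDiff ENNReal ComplexConjugate

namespace Pool.Agent.helper84.QD

namespace R2

open R1

/-- Schwarz-Pick on a disk -/
lemma pick {φ : ℂ → ℂ} {a : ℂ} {ρ : ℝ} (hρ : 0 < ρ) (hd : DifferentiableOn ℂ φ (ball a ρ))
    (hm : MapsTo φ (ball a ρ) (ball 0 1)) {r : ℝ} (hr1 : r < 1) (hr : ‖φ a‖ ≤ r) {w : ℂ}
    (hw : w ∈ ball a (ρ / 2)) : ‖φ w‖ ≤ Real.sqrt (1 - 3 / 8 * (1 - r)) := by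
  have hw' : w ∈ ball a ρ := ball_subset_ball (by linarith) hw
  set b := φ a with hb
  have hb1 : ‖b‖ < 1 := lt_of_le_of_lt hr hr1
  have hφ1 : ∀ z ∈ ball a ρ, ‖φ z‖ < 1 := fun z hz => by simpa using hm hz
  have hder : DifferentiableOn ℂ (fun z => mob b (φ z)) (ball a ρ) := fun z hz =>
    ((hasDerivAt_mob hb1 (hφ1 z hz)).comp z
      ((hd.differentiableAt (isOpen_ball.mem_nhds hz)).hasDerivAt)
      ).differentiableAt.differentiableWithinAt
  have hmaps : MapsTo (fun z => mob b (φ z)) (ball a ρ) (ball ((fun z => mob b (φ z)) a) 1) := by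
    intro z hz
    have h0 : mob b (φ a) = 0 := mob_self b
    simp only [h0]
    simpa using norm_mob_lt hb1 (hφ1 z hz)
  have h := Complex.dist_le_div_mul_dist_of_mapsTo_ball hder
    (fun z hz => ball_subset_closedBall (hmaps hz)) hw'
  have h0 : mob b (φ a) = 0 := mob_self b
  simp only [h0, dist_zero_right] at h
  have hdist : dist w a < ρ / 2 := hw
  have hT : ‖mob b (φ w)‖ ≤ 1 / 2 := by
    refine h.trans ?_
    rw [div_mul_eq_mul_div, one_mul, div_le_iff₀ hρ]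
    linarith
  have hw1 := hφ1 w hw'
  have hden := norm_pos_iff.2 (den_ne hb1 hw1)
  have hid := norm_sq_id b (φ w)
  have hT2 : ‖φ w - b‖ ≤ 1 / 2 * ‖1 - conj b * φ w‖ := by
    rw [mob, norm_div, div_le_iff₀ hden] at hT
    exact hT
  have hlow : 1 - ‖b‖ ≤ ‖1 - conj b * φ w‖ := by
    have h1 : ‖(1:ℂ)‖ - ‖conj b * φ w‖ ≤ ‖1 - conj b * φ w‖ := norm_sub_norm_le _ _
    rw [norm_mul, RCLike.norm_conj, norm_one] at h1
    nlinarith [norm_nonneg b]
  have h3 : 3 / 4 * (1 - ‖b‖) ^ 2 ≤ (1 - ‖b‖ ^ 2) * (1 - ‖φ w‖ ^ 2) := by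
    rw [← hid]
    have : ‖φ w - b‖ ^ 2 ≤ 1 / 4 * ‖1 - conj b * φ w‖ ^ 2 := by
      nlinarith [norm_nonneg (φ w - b)]
    nlinarith [hlow, norm_nonneg b]
  have h4 : 3 / 8 * (1 - r) ≤ 1 - ‖φ w‖ ^ 2 := by
    have hb0 := norm_nonneg b
    have h5 : (1 - ‖b‖) * (3 / 4 * (1 - ‖b‖) - (1 + ‖b‖) * (1 - ‖φ w‖ ^ 2)) ≤ 0 := by nlinarith
    have h6 : 3 / 4 * (1 - ‖b‖) ≤ (1 + ‖b‖) * (1 - ‖φ w‖ ^ 2) := by
      by_contra hcon
      push Not at hcon
      nlinarith [mul_pos (sub_pos.2 hb1) (sub_pos.2 hcon)]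
    have h7 : 0 ≤ 1 - ‖φ w‖ ^ 2 := by nlinarith [norm_nonneg (φ w)]
    nlinarith
  apply Real.le_sqrt_of_sq_le
  linarith

/-- uniform bound below one -/
def Bd (D : Set ℂ) (x : ℂ) (S : Set ℂ) : Prop :=
  ∃ r : ℝ, r < 1 ∧ ∀ φ : ℂ → ℂ, DifferentiableOn ℂ φ D → MapsTo φ D (ball 0 1) → φ x = 0 →
      ∀ z ∈ S, ‖φ z‖ ≤ r

lemma sqrt_lt {r : ℝ} (hr : r < 1) : Real.sqrt (1 - 3 / 8 * (1 - r)) < 1 := by
  rw [Real.sqrt_lt' one_pos]
  linarith

lemma Bd.ball {D : Set ℂ} {x a : ℂ} {ρ : ℝ} (hρ : 0 < ρ) (hD : ball a ρ ⊆ D)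
    (h : Bd D x {a}) : Bd D x (ball a (ρ / 2)) := by
  obtain ⟨r, hr, hb⟩ := h
  refine ⟨_, sqrt_lt hr, fun φ hφ hm h0 z hz => ?_⟩
  exact pick hρ (hφ.mono hD) (hm.mono_left hD) hr (hb φ hφ hm h0 a rfl) hz

lemma hasDerivAt_inv {D : Set ℂ} (hDo : IsOpen D) {φ : ℂ → ℂ} (hd : DifferentiableOn ℂ φ D)
    (hi : InjOn φ D) (hder : ∀ z ∈ D, deriv φ z ≠ 0) {z : ℂ} (hz : z ∈ D) :
    HasDerivAt (Function.invFunOn φ D) (deriv φ z)⁻¹ (φ z) := by
  have han : AnalyticAt ℂ φ z := hd.analyticAt (hDo.mem_nhds hz)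
  have hmap : map φ (𝓝 z) = 𝓝 (φ z) := han.hasStrictDerivAt.map_nhds_eq (hder z hz)
  have hinv : ∀ w ∈ D, Function.invFunOn φ D (φ w) = w := fun w hw => hi.leftInvOn_invFunOn hw
  have hcont : ContinuousAt (Function.invFunOn φ D) (φ z) := by
    unfold ContinuousAt
    rw [hinv z hz, ← hmap, tendsto_map'_iff]
    apply tendsto_id.congr'
    filter_upwards [hDo.mem_nhds hz] with w hw
    exact (hinv w hw).symm
  apply HasDerivAt.of_local_left_inverse hcont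
  · rw [hinv z hz]
    exact (hd.differentiableAt (hDo.mem_nhds hz)).hasDerivAt
  · exact hder z hz
  · rw [← hmap, eventually_map]
    filter_upwards [hDo.mem_nhds hz] with w hw
    rw [hinv w hw]

end R2

theorem schwarz_compact {D : Set ℂ} (hDo : IsOpen D) (hDc : IsConnected D) {x : ℂ} (hx : x ∈ D)
    {L : Set ℂ} (hL : IsCompact L) (hLD : L ⊆ D) :
    ∃ r : ℝ, r < 1 ∧ ∀ φ : ℂ → ℂ, DifferentiableOn ℂ φ D → MapsTo φ D (ball 0 1) → φ x = 0 →
      ∀ z ∈ L, ‖φ z‖ ≤ r := by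
  change R2.Bd D x L
  have key : ∀ z ∈ D, ∃ V ∈ 𝓝 z, R2.Bd D x V := by
    have hsub : D ⊆ {z | ∃ V ∈ 𝓝 z, R2.Bd D x V} := by
      apply hDc.isPreconnected.subset_of_closure_inter_subset
      · rw [isOpen_iff_mem_nhds]
        rintro z ⟨V, hV, hb⟩
        rw [← eventually_mem_nhds_iff] at hV
        filter_upwards [hV] with w hw using ⟨V, hw, hb⟩
      · refine ⟨x, hx, ?_⟩
        obtain ⟨δ, hδ, hδD⟩ := Metric.isOpen_iff.1 hDo x hx
        refine ⟨_, ball_mem_nhds x (half_pos hδ), R2.Bd.ball hδ hδD ⟨0, by norm_num, ?_⟩⟩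
        rintro φ _ _ h0 z rfl
        rw [h0, norm_zero]
      · rintro z ⟨hzc, hz⟩
        obtain ⟨δ, hδ, hδD⟩ := Metric.isOpen_iff.1 hDo z hz
        obtain ⟨a, ⟨V, hV, hb⟩, haz⟩ := Metric.mem_closure_iff.1 hzc (δ / 4) (by positivity)
        have hab : R2.Bd D x {a} := by
          obtain ⟨r, hr, h⟩ := hb
          refine ⟨r, hr, fun φ h1 h2 h3 w hw => ?_⟩
          rw [mem_singleton_iff.1 hw]
          exact h φ h1 h2 h3 a (mem_of_mem_nhds hV)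
        have hsub : ball a (δ / 2) ⊆ D := by
          refine Subset.trans ?_ hδD
          apply ball_subset_ball'
          rw [dist_comm]
          linarith
        have := R2.Bd.ball (half_pos hδ) hsub hab
        refine ⟨_, isOpen_ball.mem_nhds ?_, this⟩
        rw [mem_ball]
        linarith
    exact fun z hz => hsub hz
  refine hL.induction_on ?_ ?_ ?_ ?_
  · exact ⟨0, by norm_num, fun _ _ _ _ z hz => absurd hz (notMem_empty z)⟩
  · rintro s t hst ⟨r, hr, h⟩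
    exact ⟨r, hr, fun φ h1 h2 h3 z hz => h φ h1 h2 h3 z (hst hz)⟩
  · rintro s t ⟨r, hr, h⟩ ⟨r', hr', h'⟩
    refine ⟨max r r', max_lt hr hr', fun φ h1 h2 h3 z hz => ?_⟩
    rcases hz with hz | hz
    · exact (h φ h1 h2 h3 z hz).trans (le_max_left _ _)
    · exact (h' φ h1 h2 h3 z hz).trans (le_max_right _ _)
  · intro z hz
    obtain ⟨V, hV, hb⟩ := key z (hLD hz)
    exact ⟨V, mem_nhdsWithin_of_mem_nhds hV, hb⟩

theorem approx_riemann {D : Set ℂ} (hDo : IsOpen D) (hDc : IsConnected D)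
    (hDb : Bornology.IsBounded D)
    (hprim : ∀ f : ℂ → ℂ, DifferentiableOn ℂ f D → ∃ g : ℂ → ℂ, ∀ z ∈ D, HasDerivAt g (f z) z)
    {x : ℂ} (hx : x ∈ D) {L : Set ℂ} (hL : IsCompact L) (hLD : L ⊆ D) :
    ∃ g : ℂ → ℂ, DifferentiableOn ℂ g (ball 0 1) ∧ InjOn g (ball 0 1) ∧ MapsTo g (ball 0 1) D ∧
      g 0 = x ∧ (∀ w ∈ ball (0 : ℂ) 1, deriv g w ≠ 0) ∧
      ∃ ρ : ℝ, 0 < ρ ∧ ρ < 1 ∧ ∀ w : ℂ, ‖w‖ = ρ → g w ∉ L := by
  obtain ⟨r₀, hr₀, hS₀⟩ := schwarz_compact hDo hDc hx hL hLD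
  set r := max r₀ 0 with hr
  have hr1 : r < 1 := max_lt hr₀ one_pos
  have hr0 : 0 ≤ r := le_max_right _ _
  set s := (1 + r) / 2 with hs
  have hs1 : s < 1 := by rw [hs]; linarith
  have hs0 : 0 < s := by rw [hs]; linarith
  have hrs : r < s := by rw [hs]; linarith
  obtain ⟨φ, hd, hi, hm, h0, hder, hball⟩ := koebe hDo hDc hDb hprim hx hs1
  have hinv : ∀ w ∈ D, Function.invFunOn φ D (φ w) = w := fun w hw => hi.leftInvOn_invFunOn hw
  have hsw : ∀ w ∈ ball (0 : ℂ) 1, (s : ℂ) * w ∈ φ '' D := by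
    intro w hw
    apply hball
    rw [mem_ball_zero_iff] at hw ⊢
    rw [norm_mul, Complex.norm_real, Real.norm_of_nonneg hs0.le]
    nlinarith
  have hφg : ∀ w ∈ ball (0 : ℂ) 1, φ (Function.invFunOn φ D ((s : ℂ) * w)) = (s : ℂ) * w := by
    intro w hw
    exact Function.invFunOn_eq (hsw w hw)
  have hgD : ∀ w ∈ ball (0 : ℂ) 1, Function.invFunOn φ D ((s : ℂ) * w) ∈ D := by
    intro w hw
    exact Function.invFunOn_mem (hsw w hw)
  have hsc : (s : ℂ) ≠ 0 := by exact_mod_cast hs0.ne'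
  have hgd : ∀ w ∈ ball (0 : ℂ) 1, HasDerivAt (fun w => Function.invFunOn φ D ((s : ℂ) * w))
      ((deriv φ (Function.invFunOn φ D ((s : ℂ) * w)))⁻¹ * s) w := by
    intro w hw
    have h1 := R2.hasDerivAt_inv hDo hd hi hder (hgD w hw)
    rw [hφg w hw] at h1
    have h2 : HasDerivAt (fun w : ℂ => (s : ℂ) * w) s w := by
      simpa using (hasDerivAt_id w).const_mul (s : ℂ)
    exact h1.comp w h2
  refine ⟨fun w => Function.invFunOn φ D ((s : ℂ) * w),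
    fun w hw => (hgd w hw).differentiableAt.differentiableWithinAt, ?_, hgD, ?_, ?_, ?_⟩
  · intro w hw w' hw' h
    have h1 : Function.invFunOn φ D ((s : ℂ) * w) = Function.invFunOn φ D ((s : ℂ) * w') := h
    have h2 := hφg w hw
    rw [h1, hφg w' hw'] at h2
    exact (mul_left_cancel₀ hsc h2).symm
  · simp only [mul_zero]
    rw [← h0]
    exact hinv x hx
  · intro w hw
    rw [(hgd w hw).deriv]
    exact mul_ne_zero (inv_ne_zero (hder _ (hgD w hw))) hsc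
  · refine ⟨(1 + r / s) / 2, by positivity, ?_, ?_⟩
    · have : r / s < 1 := by rw [div_lt_one hs0]; exact hrs
      linarith
    · intro w hw hL'
      have hrs1 : r / s < 1 := by rw [div_lt_one hs0]; exact hrs
      have hw1 : w ∈ ball (0 : ℂ) 1 := by
        rw [mem_ball_zero_iff, hw]; linarith
      have h1 := hS₀ φ hd hm h0 _ hL'
      rw [hφg w hw1, norm_mul, Complex.norm_real, Real.norm_of_nonneg hs0.le, hw] at h1
      have h2 : s * ((1 + r / s) / 2) = (s + r) / 2 := by field_simp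
      rw [h2] at h1
      have : r₀ ≤ r := le_max_left _ _
      linarith

end Pool.Agent.helper84.QD
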