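import Pool.Agent.helper84.QD.Defs

open Metric Set Topology Filter MeasureTheory
open scoped Manifold ContDiff ENNReal ComplexConjugate

namespace Pool.Agent.helper84.QD

/-- the superlevel set -/
def sup1 (T : ℂ → ℝ) (m : ℝ) : Set ℂ := {z ∈ ball (0 : ℂ) 1 | m < T z}

namespace S3

lemma isOpen_sup1 {T : ℂ → ℝ} (hTc : ContinuousOn T (closedBall 0 1)) (m : ℝ) :
    IsOpen (sup1 T m) := by
  have h := (hTc.mono ball_subset_closedBall).isOpen_inter_preimage isOpen_ball
    (isOpen_Ioi (a := m))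
  exact h

/-- `1/(z-ζ)` is exact on `V` -/
def Ex (V : Set ℂ) (ζ : ℂ) : Prop := ∃ g : ℂ → ℂ, ∀ z ∈ V, HasDerivAt g (1 / (z - ζ)) z

lemma hasDerivAt_log_ratio {z ζ ζ' : ℂ} (h : ‖ζ' - ζ‖ < ‖z - ζ‖) :
    HasDerivAt (fun z => Complex.log ((z - ζ') / (z - ζ))) (1 / (z - ζ') - 1 / (z - ζ)) z := by
  have hz1 : z - ζ ≠ 0 := by
    intro h0
    rw [h0, norm_zero] at h
    exact absurd h (not_lt.2 (norm_nonneg _))
  have hz2 : z - ζ' ≠ 0 := by
    intro h0
    have h1 : z = ζ' := sub_eq_zero.1 h0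
    rw [h1] at h
    exact lt_irrefl _ h
  have hsl : (z - ζ') / (z - ζ) ∈ Complex.slitPlane := by
    have h1 : ‖-((ζ' - ζ) / (z - ζ))‖ < 1 := by
      rw [norm_neg, norm_div, div_lt_one (norm_pos_iff.2 hz1)]
      exact h
    have h2 := Complex.mem_slitPlane_of_norm_lt_one h1
    have h3 : 1 + -((ζ' - ζ) / (z - ζ)) = (z - ζ') / (z - ζ) := by
      field_simp
      ring
    rw [h3] at h2
    exact h2
  have h4 : HasDerivAt (fun z => (z - ζ') / (z - ζ)) ((1 * (z - ζ) - (z - ζ') * 1) / (z - ζ) ^ 2) z :=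
    ((hasDerivAt_id z).sub_const ζ').fun_div ((hasDerivAt_id z).sub_const ζ) hz1
  refine (h4.clog hsl).congr_deriv ?_
  field_simp

lemma Ex.transfer {V : Set ℂ} {ζ ζ' : ℂ} {δ : ℝ} (h : ∀ z ∈ V, δ ≤ ‖z - ζ‖)
    (hζ : ‖ζ' - ζ‖ < δ) (hE : Ex V ζ) : Ex V ζ' := by
  obtain ⟨g, hg⟩ := hE
  refine ⟨fun z => g z + Complex.log ((z - ζ') / (z - ζ)), fun z hz => ?_⟩
  refine ((hg z hz).fun_add (hasDerivAt_log_ratio (lt_of_lt_of_le hζ (h z hz)))).congr_deriv ?_
  ring

lemma Ex.transfer' {V : Set ℂ} {ζ ζ' : ℂ} {δ : ℝ} (h : ∀ z ∈ V, δ ≤ ‖z - ζ‖)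
    (hζ : ‖ζ' - ζ‖ < δ) (hE : Ex V ζ') : Ex V ζ := by
  obtain ⟨g, hg⟩ := hE
  refine ⟨fun z => g z - Complex.log ((z - ζ') / (z - ζ)), fun z hz => ?_⟩
  refine ((hg z hz).fun_sub (hasDerivAt_log_ratio (lt_of_lt_of_le hζ (h z hz)))).congr_deriv ?_
  ring

lemma dist_of_notMem_closure {V : Set ℂ} {ζ : ℂ} (h : ζ ∉ closure V) :
    ∃ δ > 0, (∀ z ∈ V, δ ≤ ‖z - ζ‖) ∧ ball ζ δ ⊆ (closure V)ᶜ := by
  obtain ⟨δ, hδ, hb⟩ := Metric.isOpen_iff.1 isClosed_closure.isOpen_compl ζ h
  refine ⟨δ, hδ, fun z hz => ?_, hb⟩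
  by_contra hcon
  push Not at hcon
  exact hb (by rwa [mem_ball, dist_eq_norm]) (subset_closure hz)

/-- the good points -/
def G (V : Set ℂ) : Set ℂ := {ζ | ζ ∉ closure V ∧ Ex V ζ}

/-- the holes -/
def B (V : Set ℂ) : Set ℂ := {ζ | ζ ∉ closure V ∧ ¬ Ex V ζ}

lemma isOpen_G (V : Set ℂ) : IsOpen (G V) := by
  rw [Metric.isOpen_iff]
  rintro ζ ⟨h1, h2⟩
  obtain ⟨δ, hδ, hV, hb⟩ := dist_of_notMem_closure h1
  refine ⟨δ, hδ, fun ζ' hζ' => ⟨hb hζ', h2.transfer hV ?_⟩⟩
  rwa [mem_ball, dist_eq_norm] at hζ'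

lemma isOpen_B (V : Set ℂ) : IsOpen (B V) := by
  rw [Metric.isOpen_iff]
  rintro ζ ⟨h1, h2⟩
  obtain ⟨δ, hδ, hV, hb⟩ := dist_of_notMem_closure h1
  refine ⟨δ, hδ, fun ζ' hζ' => ⟨hb hζ', fun h3 => h2 (h3.transfer' hV ?_)⟩⟩
  rwa [mem_ball, dist_eq_norm] at hζ'

lemma ex_of_one_le {V : Set ℂ} (hV : V ⊆ ball 0 1) {ζ : ℂ} (h : 1 ≤ ‖ζ‖) : Ex V ζ := by
  have hd : DifferentiableOn ℂ (fun z : ℂ => 1 / (z - ζ)) (ball 0 1) := by
    intro z hz
    have hz1 : z - ζ ≠ 0 := by
      intro h0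
      rw [sub_eq_zero.1 h0, mem_ball_zero_iff] at hz
      linarith
    exact ((differentiableAt_const _).div (differentiableAt_id.sub_const ζ)
      hz1).differentiableWithinAt
  obtain ⟨g, hg⟩ := hd.isExactOn_ball
  exact ⟨g, fun z hz => hg z (hV hz)⟩

lemma B_subset_ball {V : Set ℂ} (hV : V ⊆ ball 0 1) : B V ⊆ ball 0 1 := by
  rintro ζ ⟨_, h2⟩
  by_contra hcon
  rw [mem_ball_zero_iff, not_lt] at hcon
  exact h2 (ex_of_one_le hV hcon)

lemma closure_B_subset (V : Set ℂ) : closure (B V) ⊆ B V ∪ closure V := by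
  intro ζ hζ
  by_contra hcon
  rw [mem_union, not_or] at hcon
  have hG : ζ ∈ G V := ⟨hcon.2, by
    by_contra h3
    exact hcon.1 ⟨hcon.2, h3⟩⟩
  obtain ⟨ζ', h1, h2⟩ := mem_closure_iff.1 hζ _ (isOpen_G V) hG
  exact h2.2 h1.2

/-- the strict mean value property -/
lemma eq_of_average {T : ℂ → ℝ} {c : ℂ} {r μ : ℝ} (hr : 0 < r)
    (hT : ContinuousOn T (sphere c r)) (hge : ∀ z ∈ sphere c r, μ ≤ T z)
    (hav : Real.circleAverage T c r ≤ μ) : T (c + r) ≤ μ := by
  by_contra hcon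
  push Not at hcon
  have hcm : ∀ θ, circleMap c r θ ∈ sphere c r := fun θ => circleMap_mem_sphere c hr.le θ
  have hcont : Continuous fun θ => T (circleMap c r θ) - μ := by
    refine (hT.comp_continuous (continuous_circleMap c r) hcm).sub continuous_const
  have hpos : 0 < ∫ θ in (0 : ℝ)..2 * Real.pi, (T (circleMap c r θ) - μ) := by
    apply intervalIntegral.integral_pos Real.two_pi_pos hcont.continuousOn
    · intro θ _
      exact sub_nonneg.2 (hge _ (hcm θ))
    · refine ⟨0, ⟨le_rfl, Real.two_pi_pos.le⟩, ?_⟩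
      have : circleMap c r 0 = c + r := by simp [circleMap]
      rw [this]
      linarith
  have hint : IntervalIntegrable (fun θ => T (circleMap c r θ)) volume 0 (2 * Real.pi) :=
    (hT.comp_continuous (continuous_circleMap c r) hcm).intervalIntegrable _ _
  rw [intervalIntegral.integral_sub hint (by simp)] at hpos
  rw [Real.circleAverage_def] at hav
  simp only [intervalIntegral.integral_const, sub_zero, smul_eq_mul] at hpos hav
  have h2 : ∫ θ in (0 : ℝ)..2 * Real.pi, T (circleMap c r θ) ≤ 2 * Real.pi * μ := by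
    rw [inv_mul_le_iff₀ Real.two_pi_pos] at hav
    exact hav
  linarith

/-- the minimum principle in the holes -/
lemma min_principle {T : ℂ → ℝ} {s : ℝ} (hTc : ContinuousOn T (closedBall 0 1))
    (hsm : ∀ c ∈ ball (0 : ℂ) 1, ∀ᶠ r in 𝓝[>] (0 : ℝ), Real.circleAverage T c r ≤ T c)
    {V : Set ℂ} (hV : V ⊆ ball 0 1) (hVs : ∀ z ∈ closure V, s ≤ T z) :
    ∀ z ∈ B V, s ≤ T z := by
  intro z₀ hz₀
  by_contra hcon
  push Not at hcon
  have hBb := B_subset_ball hV
  have hcl : closure (B V) ⊆ closedBall 0 1 :=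
    closure_minimal (hBb.trans ball_subset_closedBall) isClosed_closedBall
  have hK : IsCompact (closure (B V)) :=
    (isCompact_closedBall 0 1).of_isClosed_subset isClosed_closure hcl
  obtain ⟨z₁, hz₁, hmin⟩ := hK.exists_isMinOn ⟨z₀, subset_closure hz₀⟩ (hTc.mono hcl)
  set μ := T z₁ with hμ
  have hμs : μ < s := lt_of_le_of_lt (hmin (subset_closure hz₀)) hcon
  -- the set of minimizers
  set M : Set ℂ := closure (B V) ∩ T ⁻¹' {μ} with hM
  have hMc : IsCompact M := by
    apply hK.of_isClosed_subset _ inter_subset_left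
    exact (hTc.mono hcl).preimage_isClosed_of_isClosed isClosed_closure isClosed_singleton
  obtain ⟨c, hcM, hcmax⟩ := hMc.exists_isMaxOn ⟨z₁, hz₁, rfl⟩ Complex.continuous_re.continuousOn
  have hcB : c ∈ B V := by
    rcases closure_B_subset V hcM.1 with h | h
    · exact h
    · have h1 := hVs c h
      have h2 : T c = μ := hcM.2
      linarith
  obtain ⟨ε, hε, hεB⟩ := Metric.isOpen_iff.1 (isOpen_B V) c hcB
  have hev := (hsm c (hBb hcB)).and (Ioo_mem_nhdsGT hε)
  obtain ⟨r, hr1, hr2⟩ := hev.exists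
  have hsph : sphere c r ⊆ B V := by
    refine Subset.trans ?_ hεB
    intro w hw
    rw [mem_ball, mem_sphere.1 hw]
    exact hr2.2
  have hcT : T c = μ := hcM.2
  have hle := eq_of_average hr2.1 (hTc.mono (hsph.trans (hBb.trans ball_subset_closedBall)))
    (μ := μ) (fun w hw => hmin (subset_closure (hsph hw))) (by rw [← hcT]; exact hr1)
  have hin : c + (r : ℂ) ∈ sphere c r := by
    rw [mem_sphere, dist_eq_norm]
    simp [abs_of_pos hr2.1]
  have hM' : c + (r : ℂ) ∈ M :=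
    ⟨subset_closure (hsph hin), le_antisymm hle (hmin (subset_closure (hsph hin)))⟩
  have := hcmax hM'
  simp at this
  exact absurd hr2.1 (not_lt.2 this)

end S3

/-- `Kh = closure V ∪ {holes of closure V}`; in the holes `T ≥ s` by the minimum principle. -/
theorem superlevel_kernels {T : ℂ → ℝ} {m s : ℝ} (hTc : ContinuousOn T (closedBall 0 1))
    (hT0 : ∀ z ∈ sphere (0 : ℂ) 1, T z < m) (hms : m < s)
    (hsm : ∀ c ∈ ball (0 : ℂ) 1, ∀ᶠ r in 𝓝[>] (0 : ℝ), Real.circleAverage T c r ≤ T c)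
    {x : ℂ} (hx : x ∈ sup1 T s) :
    ∃ Kh : Set ℂ, IsCompact Kh ∧ closure (connectedComponentIn (sup1 T s) x) ⊆ Kh ∧
      Kh ⊆ connectedComponentIn (sup1 T m) x ∧
      ∀ ζ : ℂ, ζ ∉ Kh → ∃ g : ℂ → ℂ,
        ∀ z ∈ connectedComponentIn (sup1 T s) x, HasDerivAt g (1 / (z - ζ)) z := by
  set V := connectedComponentIn (sup1 T s) x with hVdef
  have hVsub : V ⊆ sup1 T s := connectedComponentIn_subset _ _
  have hVb : V ⊆ ball 0 1 := hVsub.trans fun z hz => hz.1
  have hxV : x ∈ V := mem_connectedComponentIn hx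
  have hclos : closure V ⊆ closedBall 0 1 ∩ T ⁻¹' Ici s := by
    apply closure_minimal
    · intro z hz
      exact ⟨ball_subset_closedBall (hVb hz), (hVsub hz).2.le⟩
    · exact hTc.preimage_isClosed_of_isClosed isClosed_closedBall isClosed_Ici
  have hVs : ∀ z ∈ closure V, s ≤ T z := fun z hz => (hclos hz).2
  have hclball : closure V ⊆ ball 0 1 := by
    intro z hz
    have h1 := (hclos hz).1
    rw [mem_closedBall] at h1
    rcases h1.lt_or_eq with h2 | h2
    · exact h2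
    · have h3 := hT0 z h2
      have h4 := hVs z hz
      linarith
  have hBb := S3.B_subset_ball hVb
  have hBs := S3.min_principle hTc hsm hVb hVs
  have hsup : closure V ∪ S3.B V ⊆ sup1 T m := by
    rintro z (hz | hz)
    · exact ⟨hclball hz, lt_of_lt_of_le hms (hVs z hz)⟩
    · exact ⟨hBb hz, lt_of_lt_of_le hms (hBs z hz)⟩
  have hcV : IsPreconnected (closure V) := isPreconnected_connectedComponentIn.closure
  refine ⟨closure V ∪ S3.B V, ?_, subset_union_left, ?_, ?_⟩
  · apply (isCompact_closedBall (0 : ℂ) 1).of_isClosed_subset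
    · have h : closure V ∪ S3.B V = (S3.G V)ᶜ := by
        ext ζ
        simp only [S3.B, S3.G, mem_union, mem_ofPred_eq, mem_compl_iff]
        tauto
      rw [h]
      exact (S3.isOpen_G V).isClosed_compl
    · exact union_subset (hclball.trans ball_subset_closedBall) (hBb.trans ball_subset_closedBall)
  · rintro z (hz | hz)
    · exact hcV.subset_connectedComponentIn (subset_closure hxV) (subset_union_left.trans hsup) hz
    · set Cb := connectedComponentIn (S3.B V) z with hCb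
      have hzC : z ∈ Cb := mem_connectedComponentIn hz
      have hCsub : Cb ⊆ S3.B V := connectedComponentIn_subset _ _
      have hclC : closure Cb ⊆ S3.B V ∪ closure V :=
        (closure_mono hCsub).trans (S3.closure_B_subset V)
      have hpre : IsPreconnected (closure Cb) := isPreconnected_connectedComponentIn.closure
      have hmeet : (closure Cb ∩ closure V).Nonempty := by
        by_contra hcon
        rw [not_nonempty_iff_eq_empty] at hcon
        have h1 : closure Cb ⊆ S3.B V := by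
          intro w hw
          rcases hclC hw with h | h
          · exact h
          · exact absurd (show w ∈ closure Cb ∩ closure V from ⟨hw, h⟩) (by rw [hcon]; simp)
        have h2 : closure Cb ⊆ Cb := hpre.subset_connectedComponentIn (subset_closure hzC) h1
        have h3 : IsClosed Cb := isClosed_of_closure_subset h2
        have h4 : IsOpen Cb := (S3.isOpen_B V).connectedComponentIn
        have h5 : Cb = univ := IsClopen.eq_univ ⟨h3, h4⟩ ⟨z, hzC⟩
        have h6 : (2 : ℂ) ∈ ball (0 : ℂ) 1 := hBb (hCsub (by rw [h5]; trivial))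
        rw [mem_ball_zero_iff] at h6
        norm_num at h6
      obtain ⟨y, hy1, hy2⟩ := hmeet
      have hU : IsPreconnected (closure Cb ∪ closure V) := hpre.union y hy1 hy2 hcV
      have hUs : closure Cb ∪ closure V ⊆ sup1 T m := by
        refine Subset.trans ?_ hsup
        rintro w (hw | hw)
        · rcases hclC hw with h | h
          · exact Or.inr h
          · exact Or.inl h
        · exact Or.inl hw
      exact hU.subset_connectedComponentIn (Or.inr (subset_closure hxV)) hUs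
        (Or.inl (subset_closure hzC))
  · intro ζ hζ
    rw [mem_union, not_or] at hζ
    by_contra hcon
    exact hζ.2 ⟨hζ.1, hcon⟩

theorem S3.superlevel_primitives_aux
    (hS2 : ∀ D V Kh : Set ℂ, IsOpen D → IsOpen V → IsConnected V →
      IsCompact Kh → closure V ⊆ Kh → Kh ⊆ D →
      (∀ ζ ∈ D \ Kh, ∃ g : ℂ → ℂ, ∀ z ∈ V, HasDerivAt g (1 / (z - ζ)) z) →
      ∀ f : ℂ → ℂ, DifferentiableOn ℂ f D → ∃ g : ℂ → ℂ, ∀ z ∈ V, HasDerivAt g (f z) z)
    {T : ℂ → ℝ} {m : ℝ} (hTc : ContinuousOn T (closedBall 0 1))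
    (hT0 : ∀ z ∈ sphere (0 : ℂ) 1, T z < m)
    (hsm : ∀ c ∈ ball (0 : ℂ) 1, ∀ᶠ r in 𝓝[>] (0 : ℝ), Real.circleAverage T c r ≤ T c)
    {x : ℂ} (hx : x ∈ sup1 T m) {f : ℂ → ℂ}
    (hf : DifferentiableOn ℂ f (connectedComponentIn (sup1 T m) x)) :
    ∃ g : ℂ → ℂ, ∀ z ∈ connectedComponentIn (sup1 T m) x, HasDerivAt g (f z) z := by
  classical
  set D := connectedComponentIn (sup1 T m) x with hD
  have hmx : 0 < T x - m := sub_pos.2 hx.2
  have hDo : IsOpen D := (S3.isOpen_sup1 hTc m).connectedComponentIn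
  let s : ℕ → ℝ := fun n => m + (T x - m) / (n + 2)
  have hs1 : ∀ n, m < s n := fun n => by
    have : 0 < (T x - m) / ((n : ℝ) + 2) := by positivity
    simp only [s]; linarith
  have hs2 : ∀ n, s n < T x := fun n => by
    have : (T x - m) / ((n : ℝ) + 2) < T x - m := by
      apply div_lt_self hmx
      have : (0 : ℝ) ≤ n := Nat.cast_nonneg n
      linarith
    simp only [s]; linarith
  have hs3 : ∀ n k, n ≤ k → s k ≤ s n := fun n k h => by
    have h' : (n : ℝ) ≤ k := by exact_mod_cast h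
    have : (T x - m) / ((k : ℝ) + 2) ≤ (T x - m) / ((n : ℝ) + 2) := by
      apply div_le_div_of_nonneg_left hmx.le (by positivity)
      linarith
    simp only [s]; linarith
  have hs4 : ∀ ε > 0, ∃ n, s n < m + ε := by
    intro ε hε
    obtain ⟨n, hn⟩ := exists_nat_gt ((T x - m) / ε)
    refine ⟨n, ?_⟩
    have h1 : (T x - m) / ((n : ℝ) + 2) < ε := by
      rw [div_lt_iff₀ (by positivity)]
      rw [div_lt_iff₀ hε] at hn
      nlinarith
    simp only [s]; linarith
  let V : ℕ → Set ℂ := fun n => connectedComponentIn (sup1 T (s n)) x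
  have hxs : ∀ n, x ∈ sup1 T (s n) := fun n => ⟨hx.1, hs2 n⟩
  have hVo : ∀ n, IsOpen (V n) := fun n => (S3.isOpen_sup1 hTc (s n)).connectedComponentIn
  have hxV : ∀ n, x ∈ V n := fun n => mem_connectedComponentIn (hxs n)
  have hVc : ∀ n, IsPreconnected (V n) := fun n => isPreconnected_connectedComponentIn
  have hsupmono : ∀ a b : ℝ, b ≤ a → sup1 T a ⊆ sup1 T b := fun a b h z hz =>
    ⟨hz.1, lt_of_le_of_lt h hz.2⟩
  have hVmono : ∀ n k, n ≤ k → V n ⊆ V k := fun n k h =>
    connectedComponentIn_mono x (hsupmono _ _ (hs3 n k h))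
  -- primitives on `V n`
  have hex : ∀ n, ∃ g : ℂ → ℂ, g x = 0 ∧ ∀ z ∈ V n, HasDerivAt g (f z) z := by
    intro n
    obtain ⟨Kh, hK1, hK2, hK3, hK4⟩ := superlevel_kernels hTc hT0 (hs1 n) hsm (hxs n)
    obtain ⟨g, hg⟩ := hS2 D (V n) Kh hDo (hVo n) ⟨⟨x, hxV n⟩, hVc n⟩ hK1 hK2 hK3
      (fun ζ hζ => hK4 ζ hζ.2) f hf
    exact ⟨fun z => g z - g x, sub_self _, fun z hz => (hg z hz).sub_const _⟩
  choose g hg0 hg using hex
  have hagree : ∀ n k, n ≤ k → ∀ z ∈ V n, g n z = g k z := by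
    intro n k hnk z hz
    have hder : ∀ w ∈ V n, HasDerivAt (fun w => g n w - g k w) 0 w := fun w hw =>
      ((hg n w hw).fun_sub (hg k w (hVmono n k hnk hw))).congr_deriv (sub_self _)
    have hc := (hVo n).is_const_of_deriv_eq_zero (hVc n)
      (fun w hw => (hder w hw).differentiableAt.differentiableWithinAt)
      (fun w hw => (hder w hw).deriv) hz (hxV n)
    simp only [hg0, sub_self] at hc
    exact sub_eq_zero.1 hc
  -- the union
  have hunion : D ⊆ {z | ∃ n, z ∈ V n} := by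
    apply (isPreconnected_connectedComponentIn).subset_of_closure_inter_subset
    · have : {z | ∃ n, z ∈ V n} = ⋃ n, V n := by ext z; simp
      rw [this]
      exact isOpen_iUnion hVo
    · exact ⟨x, mem_connectedComponentIn hx, 0, hxV 0⟩
    · rintro z ⟨hzc, hz⟩
      have hzm : z ∈ sup1 T m := connectedComponentIn_subset _ _ hz
      have hε : 0 < (T z - m) / 2 := by linarith [hzm.2]
      have hzε : z ∈ sup1 T (m + (T z - m) / 2) := ⟨hzm.1, by linarith [hzm.2]⟩
      obtain ⟨δ, hδ, hδb⟩ := Metric.isOpen_iff.1 (S3.isOpen_sup1 hTc _) z hzε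
      obtain ⟨w, ⟨n, hwn⟩, hwz⟩ := Metric.mem_closure_iff.1 hzc δ hδ
      obtain ⟨k, hk⟩ := hs4 _ hε
      refine ⟨max n k, ?_⟩
      have hsub : ball z δ ⊆ sup1 T (s (max n k)) :=
        hδb.trans (hsupmono _ _ ((hs3 k _ (le_max_right n k)).trans hk.le))
      have hwV : w ∈ V (max n k) := hVmono n _ (le_max_left n k) hwn
      have hwb : w ∈ ball z δ := by rw [mem_ball, dist_comm]; exact hwz
      have hpre : IsPreconnected (V (max n k) ∪ ball z δ) :=
        (hVc _).union w hwV hwb (convex_ball z δ).isPreconnected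
      exact hpre.subset_connectedComponentIn (Or.inl (hxV _))
        (union_subset (connectedComponentIn_subset _ _) hsub) (Or.inr (mem_ball_self hδ))
  let N : ℂ → ℕ := fun z => if h : ∃ n, z ∈ V n then Nat.find h else 0
  have hN : ∀ n, ∀ z ∈ V n, g (N z) z = g n z := by
    intro n z hz
    have h : ∃ n, z ∈ V n := ⟨n, hz⟩
    have h1 : N z = Nat.find h := dif_pos h
    rw [h1]
    exact hagree _ _ (Nat.find_min' h hz) z (Nat.find_spec h)
  refine ⟨fun z => g (N z) z, fun z hz => ?_⟩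
  obtain ⟨n, hn⟩ := hunion hz
  refine (hg n z hn).congr_of_eventuallyEq ?_
  filter_upwards [(hVo n).mem_nhds hn] with w hw using hN n w hw

end Pool.Agent.helper84.QD
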