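import Pool.Agent.helper64.QD.S3
import Pool.Agent.helper41.QD.S2

open Metric Set Topology Filter MeasureTheory
open scoped Manifold ContDiff ENNReal ComplexConjugate

namespace Pool.Agent.helper84.QD

theorem superlevel_primitives {T : ℂ → ℝ} {m : ℝ} (hTc : ContinuousOn T (closedBall 0 1))
    (hT0 : ∀ z ∈ sphere (0 : ℂ) 1, T z < m)
    (hsm : ∀ c ∈ ball (0 : ℂ) 1, ∀ᶠ r in 𝓝[>] (0 : ℝ), Real.circleAverage T c r ≤ T c)
    {x : ℂ} (hx : x ∈ sup1 T m) {f : ℂ → ℂ}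
    (hf : DifferentiableOn ℂ f (connectedComponentIn (sup1 T m) x)) :
    ∃ g : ℂ → ℂ, ∀ z ∈ connectedComponentIn (sup1 T m) x, HasDerivAt g (f z) z :=
  S3.superlevel_primitives_aux (fun _ _ _ h1 h2 h3 h4 h5 h6 h7 _ hf =>
    exact_of_kernels h1 h2 h3 h4 h5 h6 h7 hf) hTc hT0 hsm hx hf

end Pool.Agent.helper84.QD
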